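import Pool.Agent.Mader4.Three

/-!
# A minimal digraph without a subdivision of the bioriented triangle which is not
3-dicolourable is strongly 2-connected (Theorem 1 of note 280)
-/

set_option autoImplicit false

namespace Pool.Agent.MD12.TS6

open List Relation Pool.Agent.Mader

variable {V : Type*}

/-- The reversed relation. -/
def Rv (E : V → V → Prop) : V → V → Prop := fun p q => E q p

section Rev

variable {E E' r : V → V → Prop} {S S' : Set V} {β : Fin 3 → V} {L : Fin 3 → Fin 3 → List V}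
  {a b c v : V} {l : List V} {k : ℕ}

theorem nxt_rev {L : List V} (h : Nxt L.reverse a b) : Nxt L b a := by
  obtain ⟨l₁, l₂, e⟩ := h
  refine ⟨l₂.reverse, l₁.reverse, ?_⟩
  have := congrArg List.reverse e
  simpa using this

theorem isK3_rev (h : IsK3 E S β L) : IsK3 (Rv E) S β (fun i j => (L j i).reverse) where
  inj := h.inj
  chain i j hij := by
    rw [isChain_iff_nxt]
    intro a b hab
    exact isChain_iff_nxt.1 (h.chain j i hij.symm) b a (nxt_rev hab)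
  nodup i j hij := nodup_reverse.2 (h.nodup j i hij.symm)
  head i j hij := by
    rw [head?_reverse]; exact h.last j i hij.symm
  last i j hij := by
    rw [getLast?_reverse]; exact h.head j i hij.symm
  br i j k hij hk := by
    rw [mem_reverse] at hk
    exact (h.br j i k hij.symm hk).symm
  disj i j k l v hij hkl hne h1 h2 := by
    rw [mem_reverse] at h1 h2
    refine h.disj j i l k v hij.symm hkl.symm ?_ h1 h2
    intro e
    obtain ⟨rfl, rfl⟩ := Prod.mk.inj e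
    exact hne rfl
  mem i j hij v hv := by
    rw [mem_reverse] at hv
    exact h.mem j i hij.symm v hv

theorem hasK3_rev (h : HasK3 E S) : HasK3 (Rv E) S := by
  obtain ⟨β, L, h⟩ := h
  exact ⟨β, _, isK3_rev h⟩

theorem pth_rev (h : Pth r a l b) : Pth (Rv r) b l.reverse a := by
  have e : b :: (l.reverse ++ [a]) = (a :: (l ++ [b])).reverse := by simp
  refine ⟨?_, ?_⟩
  · rw [e, isChain_iff_nxt]
    intro x y hxy
    exact isChain_iff_nxt.1 h.1 y x (nxt_rev hxy)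
  · rw [e]; exact nodup_reverse.2 h.2

theorem pth_tail_ne (h : Pth r a l b) : Pth (fun p q => r p q ∧ p ≠ b) a l b := by
  refine ⟨?_, h.2⟩
  rw [isChain_iff_nxt]
  intro x y hxy
  refine ⟨isChain_iff_nxt.1 h.1 x y hxy, ?_⟩
  refine hxy.ne_last h.2 ?_
  rw [show a :: (l ++ [b]) = (a :: l) ++ [b] by simp, getLast?_append_of_ne_nil _ (by simp)]
  simp

/-- Strengthening the relation along a path. -/
theorem pth_imp {r s : V → V → Prop} (h : Pth r a l b)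
    (hrs : ∀ p q, (p = a ∨ p ∈ l) → (q ∈ l ∨ q = b) → r p q → s p q) : Pth s a l b := by
  refine ⟨?_, h.2⟩
  rw [isChain_iff_nxt]
  intro x y hxy
  refine hrs x y ?_ ?_ (isChain_iff_nxt.1 h.1 x y hxy)
  · have hx : x ≠ b := by
      refine hxy.ne_last h.2 ?_
      rw [show a :: (l ++ [b]) = (a :: l) ++ [b] by simp, getLast?_append_of_ne_nil _ (by simp)]
      simp
    have := hxy.left_mem
    simp only [mem_cons, mem_append, not_mem_nil, or_false] at this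
    tauto
  · have hy : y ≠ a := by
      refine hxy.ne_head h.2 ?_
      simp
    have := hxy.right_mem
    simp only [mem_cons, mem_append, not_mem_nil, or_false] at this
    tauto

end Rev

section Ints

variable {E E' r : V → V → Prop} {S S' : Set V} {β : Fin 3 → V} {L : Fin 3 → Fin 3 → List V}

theorem exists_int {L : List V} {a b : V} (h1 : L.head? = some a)
    (h2 : L.getLast? = some b) (hab : a ≠ b) : ∃ l, L = a :: (l ++ [b]) := by
  cases L with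
  | nil => simp at h1
  | cons c L =>
    simp at h1
    subst h1
    rcases List.eq_nil_or_concat L with rfl | ⟨l, d, rfl⟩
    · simp at h2; exact absurd h2 hab
    · refine ⟨l, ?_⟩
      rw [concat_eq_append] at h2 ⊢
      rw [show c :: (l ++ [d]) = (c :: l) ++ [d] by simp, getLast?_append_of_ne_nil _ (by simp)] at h2
      simp at h2
      rw [h2]

theorem ints (h : IsK3 E S β L) : ∃ p : Fin 3 → Fin 3 → List V,
    (∀ i j, i ≠ j → L i j = β i :: (p i j ++ [β j])) ∧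
    (∀ i j, i ≠ j → Pth E (β i) (p i j) (β j)) ∧
    (∀ i j k, i ≠ j → β k ∉ p i j) ∧
    (∀ i j k l, i ≠ j → k ≠ l → (i, j) ≠ (k, l) → ∀ z ∈ p i j, z ∉ p k l) := by
  have hint : ∀ i j : Fin 3, i ≠ j → ∃ l, L i j = β i :: (l ++ [β j]) := fun i j hij =>
    exists_int (h.head i j hij) (h.last i j hij) (fun e => hij (h.inj e))
  choose! p hp using hint
  have hP : ∀ i j : Fin 3, i ≠ j → Pth E (β i) (p i j) (β j) := by
    intro i j hij
    refine ⟨?_, ?_⟩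
    · have := h.chain i j hij
      rwa [hp i j hij] at this
    · have := h.nodup i j hij
      rwa [hp i j hij] at this
  have hav : ∀ i j k : Fin 3, i ≠ j → β k ∉ p i j := by
    intro i j k hij hk
    have hmem : β k ∈ L i j := by rw [hp i j hij]; simp [hk]
    rcases h.br i j k hij hmem with rfl | rfl
    · exact (hP k j hij).not_mem_left hk
    · exact (hP i k hij).not_mem_right hk
  refine ⟨p, hp, hP, hav, ?_⟩
  intro i j k l hij hkl hne z hz hz'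
  obtain ⟨m, rfl⟩ := h.disj i j k l z hij hkl hne (by rw [hp i j hij]; simp [hz])
    (by rw [hp k l hkl]; simp [hz'])
  exact hav i j m hij hz

/-- At a vertex `v` a subdivision uses one out-arc, or two out-arcs to `b₁`, `b₂` from which
there are disjoint paths back to `v`. -/
theorem out_cases (h : IsK3 E S β L) (v : V) :
    (∃ b, IsK3 (fun p q => E p q ∧ (p = v → q = b)) S β L) ∨
    (∃ b₁ b₂ m₁ m₂, b₁ ≠ b₂ ∧ IsK3 (fun p q => E p q ∧ (p = v → q = b₁ ∨ q = b₂)) S β L ∧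
      Pth (fun p q => E p q ∧ p ≠ v) b₁ m₁ v ∧ Pth (fun p q => E p q ∧ p ≠ v) b₂ m₂ v ∧
      b₁ ∉ m₂ ∧ b₂ ∉ m₁ ∧ ∀ z ∈ m₁, z ∉ m₂) := by
  by_cases hv : ∃ m, v = β m
  · right
    obtain ⟨m, rfl⟩ := hv
    obtain ⟨p, hp, hP, hav, hdj⟩ := ints h
    have key : ∀ j, j ≠ m → ∃ b mm, (∀ q, Nxt (L m j) (β m) q → q = b) ∧
        Pth (fun p q => E p q ∧ p ≠ β m) b mm (β m) ∧
        ∀ z, z = b ∨ z ∈ mm → (z = β j ∨ z ∈ p m j ∨ z ∈ p j m) := by
      intro j hj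
      have hβ : β j ≠ β m := fun e => hj (h.inj e)
      rcases hc : p m j with _ | ⟨c, l0⟩
      · refine ⟨β j, p j m, ?_, pth_tail_ne (hP j m hj), ?_⟩
        · intro q hq
          refine hq.unique (h.nodup m j hj.symm) ⟨[], [], ?_⟩
          rw [hp m j hj.symm, hc]; simp
        · rintro z (h | h)
          · exact Or.inl h
          · exact Or.inr (Or.inr h)
      · have h1 := hP m j hj.symm
        rw [hc] at h1
        have h2 := (Pth.split (l₁ := []) (q := c) (l₂ := l0) (by simpa using h1)).2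
        have h3 := hP j m hj
        have hcm : c ∈ p m j := by rw [hc]; simp
        refine ⟨c, l0 ++ β j :: p j m, ?_, pth_tail_ne (h2.append h3 ?_ ?_ ?_ ?_), ?_⟩
        · intro q hq
          refine hq.unique (h.nodup m j hj.symm) ⟨[], l0 ++ [β j], ?_⟩
          rw [hp m j hj.symm, hc]; simp
        · intro z hz hz'
          exact hdj j m m j hj hj.symm (fun e => hj (Prod.mk.inj e).1) z hz (by rw [hc]; simp [hz'])
        · intro hz
          exact hdj j m m j hj hj.symm (fun e => hj (Prod.mk.inj e).1) c hz hcm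
        · intro e
          exact hav m j m hj.symm (e ▸ hcm)
        · intro hz
          exact hav m j m hj.symm (by rw [hc]; simp [hz])
        · intro z hz
          simp only [mem_append, mem_cons] at hz
          rcases hz with hz | hz | hz | hz
          · exact Or.inr (Or.inl (by simp [hz]))
          · exact Or.inr (Or.inl (by simp [hz]))
          · exact Or.inl hz
          · exact Or.inr (Or.inr hz)
    have h1 : m + 1 ≠ m := by fin_cases m <;> decide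
    have h2 : m + 2 ≠ m := by fin_cases m <;> decide
    have h12 : m + 1 ≠ m + 2 := by fin_cases m <;> decide
    obtain ⟨b₁, m₁, hb₁, hp₁, hz₁⟩ := key (m + 1) h1
    obtain ⟨b₂, m₂, hb₂, hp₂, hz₂⟩ := key (m + 2) h2
    have hdis : ∀ z, (z = b₁ ∨ z ∈ m₁) → (z = b₂ ∨ z ∈ m₂) → False := by
      intro z hz hz'
      have e1 := hz₁ z hz
      have e2 := hz₂ z hz'
      have hne : ∀ i j k l : Fin 3, (i = m ∧ j = m + 1 ∨ i = m + 1 ∧ j = m) →
          (k = m ∧ l = m + 2 ∨ k = m + 2 ∧ l = m) → i ≠ j ∧ k ≠ l ∧ (i, j) ≠ (k, l) := by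
        rintro i j k l (⟨rfl, rfl⟩ | ⟨rfl, rfl⟩) (⟨rfl, rfl⟩ | ⟨rfl, rfl⟩)
        · exact ⟨h1.symm, h2.symm, fun e => h12 (Prod.mk.inj e).2⟩
        · exact ⟨h1.symm, h2, fun e => h1 (Prod.mk.inj e).2⟩
        · exact ⟨h1, h2.symm, fun e => h1 (Prod.mk.inj e).1⟩
        · exact ⟨h1, h2, fun e => h12 (Prod.mk.inj e).1⟩
      rcases e1 with rfl | e1 | e1
      · rcases e2 with e2 | e2 | e2
        · exact h12 (h.inj e2)
        · exact hav _ _ _ h2.symm e2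
        · exact hav _ _ _ h2 e2
      · rcases e2 with rfl | e2 | e2
        · exact hav _ _ _ h1.symm e1
        · obtain ⟨a1, a2, a3⟩ := hne m (m+1) m (m+2) (Or.inl ⟨rfl, rfl⟩) (Or.inl ⟨rfl, rfl⟩)
          exact hdj _ _ _ _ a1 a2 a3 z e1 e2
        · obtain ⟨a1, a2, a3⟩ := hne m (m+1) (m+2) m (Or.inl ⟨rfl, rfl⟩) (Or.inr ⟨rfl, rfl⟩)
          exact hdj _ _ _ _ a1 a2 a3 z e1 e2
      · rcases e2 with rfl | e2 | e2
        · exact hav _ _ _ h1 e1
        · obtain ⟨a1, a2, a3⟩ := hne (m+1) m m (m+2) (Or.inr ⟨rfl, rfl⟩) (Or.inl ⟨rfl, rfl⟩)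
          exact hdj _ _ _ _ a1 a2 a3 z e1 e2
        · obtain ⟨a1, a2, a3⟩ := hne (m+1) m (m+2) m (Or.inr ⟨rfl, rfl⟩) (Or.inr ⟨rfl, rfl⟩)
          exact hdj _ _ _ _ a1 a2 a3 z e1 e2
    refine ⟨b₁, b₂, m₁, m₂, ?_, h.imp ?_ (subset_refl _), hp₁, hp₂, ?_, ?_, ?_⟩
    · intro e
      exact hdis b₁ (Or.inl rfl) (Or.inl e)
    · intro i j hij a b hab hE
      refine ⟨hE, ?_⟩
      rintro rfl
      have hi : m = i := by
        rcases h.br i j m hij hab.left_mem with e | e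
        · exact e
        · subst e
          exact absurd rfl (hab.ne_last (h.nodup i m hij) (h.last i m hij))
      subst hi
      have hj : j = m + 1 ∨ j = m + 2 := fin3_cases m j hij
      rcases hj with rfl | rfl
      · exact Or.inl (hb₁ b hab)
      · exact Or.inr (hb₂ b hab)
    · intro e; exact hdis b₁ (Or.inl rfl) (Or.inr e)
    · intro e; exact hdis b₂ (Or.inr e) (Or.inl rfl)
    · intro z hz hz'; exact hdis z (Or.inr hz) (Or.inr hz')
  · left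
    by_cases hb : ∃ i j b, i ≠ j ∧ Nxt (L i j) v b
    · obtain ⟨i₀, j₀, b₀, hij₀, hb₀⟩ := hb
      refine ⟨b₀, h.imp ?_ (subset_refl _)⟩
      intro i j hij a b hab hE
      refine ⟨hE, ?_⟩
      rintro rfl
      by_cases e : (i, j) = (i₀, j₀)
      · obtain ⟨rfl, rfl⟩ := Prod.mk.inj e
        exact hab.unique (h.nodup i j hij) hb₀
      · exact absurd (h.disj i j i₀ j₀ a hij hij₀ e hab.left_mem hb₀.left_mem) hv
    · refine ⟨v, h.imp ?_ (subset_refl _)⟩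
      intro i j hij a b hab hE
      refine ⟨hE, ?_⟩
      rintro rfl
      exact absurd ⟨i, j, b, hij, hab⟩ hb

/-- Replace two arcs of a subdivision by disjoint paths outside `S`. -/
theorem lift2 {u₁ w₁ u₂ w₂ : V}
    (h : HasK3 (fun p q => (E p q ∨ (p = u₁ ∧ q = w₁)) ∨ (p = u₂ ∧ q = w₂)) S)
    (hE : ∀ a b, E a b → E' a b) (l₁ l₂ : List V)
    (h₁ : Pth E' u₁ l₁ w₁) (h₂ : Pth E' u₂ l₂ w₂) (hd : ∀ z ∈ l₁, z ∉ l₂)
    (hS₁ : ∀ z ∈ l₁, z ∉ S) (hS₂ : ∀ z ∈ l₂, z ∉ S) (hSS : S ⊆ S')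
    (hl₁ : ∀ z ∈ l₁, z ∈ S') (hl₂ : ∀ z ∈ l₂, z ∈ S') : HasK3 E' S' := by
  have step : HasK3 (fun p q => E' p q ∨ (p = u₁ ∧ q = w₁)) (S ∪ {z | z ∈ l₂}) := by
    refine h.lift (E' := fun p q => E' p q ∨ (p = u₁ ∧ q = w₁)) ?_ l₂
      (h₂.1.imp (fun _ _ h => Or.inl h)) h₂.nodup_int hS₂ (fun z hz => Or.inl hz)
      (fun z hz => Or.inr hz)
    intro a b _ _ _ hab
    rcases hab with e | e
    · exact Or.inl (hE a b e)
    · exact Or.inr e
  refine step.lift (E' := E') (fun _ _ _ _ _ h => h) l₁ h₁.1 h₁.nodup_int ?_ ?_ hl₁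
  · rintro z hz (h | h)
    · exact hS₁ z hz h
    · exact hd z hz h
  · rintro z (h | h)
    · exact hSS h
    · exact hl₂ z h

/-- Replace one arc of a subdivision by a path outside `S`. -/
theorem lift1 {u w : V} (h : HasK3 (fun p q => E p q ∨ (p = u ∧ q = w)) S)
    (hE : ∀ a b, E a b → E' a b) (l : List V) (h₁ : Pth E' u l w)
    (hS : ∀ z ∈ l, z ∉ S) (hSS : S ⊆ S') (hl : ∀ z ∈ l, z ∈ S') : HasK3 E' S' :=
  h.lift (fun a b _ _ _ hab => hE a b hab) l h₁.1 h₁.nodup_int hS hSS hl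

end Ints

/-! ## The cut -/

theorem rtg_avoid {r : V → V → Prop} {a b z : V} {l : List V} (h : Pth r a l b) (ha : a ≠ z)
    (hb : b ≠ z) (hl : z ∉ l) : ReflTransGen (fun p q => r p q ∧ p ≠ z ∧ q ≠ z) a b := by
  refine (pth_imp h ?_).reflTransGen
  intro p q hp hq hpq
  refine ⟨hpq, ?_, ?_⟩
  · rcases hp with rfl | hp
    · exact ha
    · rintro rfl; exact hl hp
  · rcases hq with hq | rfl
    · rintro rfl; exact hl hq
    · exact hb

/-- A minimum counterexample `E` with a cut vertex `c` and no arc from `B` to `A`. -/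
structure Cut (E : V → V → Prop) (S : Set V) (c : V) (A B : Set V) : Prop where
  mc : MinCex E S
  cS : c ∈ S
  cA : c ∉ A
  cB : c ∉ B
  disj : ∀ p, p ∈ A → p ∉ B
  cov : ∀ p, p ∈ S → p ∈ A ∨ p ∈ B ∨ p = c
  AS : A ⊆ S
  BS : B ⊆ S
  BA : ∀ p q, p ∈ B → E p q → q ∉ A
  neA : A.Nonempty
  neB : B.Nonempty
  F1 : ∀ s ∈ A, ∀ a ∈ A, a ≠ s →
    ReflTransGen (fun p q => (E p q ∧ (p ∈ A ∨ p = c) ∧ q ∈ A) ∧ p ≠ s ∧ q ≠ s) c a

/-- `a` has two out-neighbours in `B` with disjoint paths to `c` in `B`. -/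
def NS (E : V → V → Prop) (B : Set V) (c a : V) : Prop :=
  ∃ b₁ b₂ m₁ m₂, b₁ ≠ b₂ ∧ E a b₁ ∧ E a b₂ ∧ b₁ ∈ B ∧ b₂ ∈ B ∧ Pth E b₁ m₁ c ∧ Pth E b₂ m₂ c ∧
    b₁ ∉ m₂ ∧ b₂ ∉ m₁ ∧ (∀ z ∈ m₁, z ∉ m₂) ∧ (∀ z ∈ m₁, z ∈ B) ∧ (∀ z ∈ m₂, z ∈ B)

/-- arcs inside `A + c` that are monochromatic -/
def MA (E : V → V → Prop) (A : Set V) (c : V) (φ : V → Fin 3) : V → V → Prop :=
  fun p q => (E p q ∧ (p ∈ A ∨ p = c) ∧ (q ∈ A ∨ q = c)) ∧ φ p = φ q

/-- `B + c` with arcs `c → b` for arcs `a → b` with a gate `a` -/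
def DB (E : V → V → Prop) (A B : Set V) (c : V) (gate : V → Prop) : V → V → Prop :=
  fun p q => (E p q ∧ (p ∈ B ∨ p = c) ∧ (q ∈ B ∨ q = c)) ∨
    (p = c ∧ q ∈ B ∧ ∃ a ∈ A, gate a ∧ E a q)

/-- `A + c` with arcs `a → c` for `NS` vertices -/
def DA (E : V → V → Prop) (A B : Set V) (c : V) : V → V → Prop :=
  fun p q => (E p q ∧ (p ∈ A ∨ p = c) ∧ (q ∈ A ∨ q = c)) ∨ (p ∈ A ∧ q = c ∧ NS E B c p)

section Cut

variable [Finite V] {E : V → V → Prop} {S A B : Set V} {c : V}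

theorem Cut.toA (h : Cut E S c A B) {a : V} (ha : a ∈ A) :
    ∃ l, Pth (fun p q => E p q ∧ (p ∈ A ∨ p = c) ∧ q ∈ A) c l a ∧ ∀ z ∈ l, z ∈ A := by
  have hca : c ≠ a := by rintro rfl; exact h.cA ha
  obtain ⟨l, hl⟩ := exists_pth' (h.mc.strong h.cS (h.AS ha)) hca
  have hcl : ∀ z ∈ l, z ∈ A := hl.forall_int_of_coclosed (P := fun z => z ∈ A) ha (by
    intro p q hq hpq
    have hpS := (h.mc.supp p q hpq).1
    rcases h.cov p hpS with e | e | e
    · exact Or.inl e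
    · exact absurd hq (h.BA p q e hpq)
    · exact Or.inr e)
  refine ⟨l, pth_imp hl ?_, hcl⟩
  intro p q hp hq hpq
  refine ⟨hpq, ?_, ?_⟩
  · rcases hp with rfl | hp
    · exact Or.inr rfl
    · exact Or.inl (hcl p hp)
  · rcases hq with hq | rfl
    · exact hcl q hq
    · exact ha

theorem Cut.fanA (h : Cut E S c A B) {a₁ a₂ : V} (h1 : a₁ ∈ A) (h2 : a₂ ∈ A) (hne : a₁ ≠ a₂) :
    ∃ l₁ l₂, Pth E c l₁ a₁ ∧ Pth E c l₂ a₂ ∧ a₂ ∉ l₁ ∧ a₁ ∉ l₂ ∧ (∀ z ∈ l₁, z ∉ l₂) ∧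
      (∀ z ∈ l₁, z ∈ A) ∧ (∀ z ∈ l₂, z ∈ A) := by
  have hca₁ : c ≠ a₁ := by rintro rfl; exact h.cA h1
  have hca₂ : c ≠ a₂ := by rintro rfl; exact h.cA h2
  obtain ⟨l₁, l₂, p1, p2, q1, q2, hd, _⟩ := fan (r := fun p q => E p q ∧ (p ∈ A ∨ p = c) ∧ q ∈ A)
    (v := c) (x := a₁) (a := a₂) hca₁ (by
      intro z hzc hza
      by_cases hz : z ∈ A
      · exact h.F1 z hz a₁ h1 (Ne.symm hza)
      · obtain ⟨l, hl, hlA⟩ := h.toA h1
        exact rtg_avoid hl (Ne.symm hzc) (Ne.symm hza) (fun e => hz (hlA z e)))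
    (h.F1 a₁ h1 a₂ h2 hne.symm) hca₂.symm
  refine ⟨l₁, l₂, p1.mono (fun _ _ h => h.1), p2.mono (fun _ _ h => h.1), q1, q2, hd, ?_, ?_⟩
  · exact p1.forall_int (P := fun z => z ∈ A) (fun p q h => h.2.2)
  · exact p2.forall_int (P := fun z => z ∈ A) (fun p q h => h.2.2)

/-- one virtual arc `c → b` -/
theorem Cut.noB1 (h : Cut E S c A B) {a b : V} (ha : a ∈ A) (hb : b ∈ B) (hab : E a b)
    (hk : HasK3 (fun p q => E p q ∨ (p = c ∧ q = b)) (B ∪ {c})) : False := by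
  obtain ⟨l, hl, hlA⟩ := h.toA ha
  have hab' : a ≠ b := by rintro rfl; exact h.disj _ ha hb
  have hcb : c ≠ b := by rintro rfl; exact h.cB hb
  have hbl : b ∉ l := fun e => h.disj b (hlA b e) hb
  have hp : Pth E c (l ++ [a]) b := (hl.mono (fun _ _ h => h.1)).snoc hab hcb hab' hbl
  have hA : ∀ z ∈ l ++ [a], z ∈ A := by
    intro z hz
    rcases mem_append.1 hz with hz | hz
    · exact hlA z hz
    · rw [mem_singleton.1 hz]; exact ha
  refine h.mc.nok (lift1 hk (fun _ _ h => h) (l ++ [a]) hp ?_ ?_ (fun z hz => h.AS (hA z hz)))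
  · rintro z hz (e | e)
    · exact h.disj z (hA z hz) e
    · rw [e] at hz; exact h.cA (hA c hz)
  · rintro z (e | e)
    · exact h.BS e
    · rw [e]; exact h.cS

/-- two virtual arcs `c → b₁`, `c → b₂` -/
theorem Cut.noB2 (h : Cut E S c A B) {a₁ a₂ b₁ b₂ : V} (ha₁ : a₁ ∈ A) (ha₂ : a₂ ∈ A)
    (hne : a₁ ≠ a₂) (hb₁ : b₁ ∈ B) (hb₂ : b₂ ∈ B) (hab₁ : E a₁ b₁) (hab₂ : E a₂ b₂)
    (hk : HasK3 (fun p q => (E p q ∨ (p = c ∧ q = b₁)) ∨ (p = c ∧ q = b₂)) (B ∪ {c})) :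
    False := by
  obtain ⟨l₁, l₂, p1, p2, q1, q2, hd, hA₁, hA₂⟩ := h.fanA ha₁ ha₂ hne
  have hcb : ∀ b ∈ B, c ≠ b := by rintro b hb rfl; exact h.cB hb
  have hAB : ∀ a ∈ A, ∀ b ∈ B, a ≠ b := by rintro a ha b hb rfl; exact h.disj a ha hb
  have hp₁ : Pth E c (l₁ ++ [a₁]) b₁ :=
    p1.snoc hab₁ (hcb b₁ hb₁) (hAB a₁ ha₁ b₁ hb₁) (fun e => h.disj b₁ (hA₁ b₁ e) hb₁)
  have hp₂ : Pth E c (l₂ ++ [a₂]) b₂ :=
    p2.snoc hab₂ (hcb b₂ hb₂) (hAB a₂ ha₂ b₂ hb₂) (fun e => h.disj b₂ (hA₂ b₂ e) hb₂)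
  have hA₁' : ∀ z ∈ l₁ ++ [a₁], z ∈ A := by
    intro z hz
    rcases mem_append.1 hz with hz | hz
    · exact hA₁ z hz
    · rw [mem_singleton.1 hz]; exact ha₁
  have hA₂' : ∀ z ∈ l₂ ++ [a₂], z ∈ A := by
    intro z hz
    rcases mem_append.1 hz with hz | hz
    · exact hA₂ z hz
    · rw [mem_singleton.1 hz]; exact ha₂
  have hout : ∀ z ∈ A, z ∉ B ∪ {c} := by
    rintro z hz (e | e)
    · exact h.disj z hz e
    · rw [e] at hz; exact h.cA hz
  refine h.mc.nok (lift2 hk (fun _ _ h => h) (l₁ ++ [a₁]) (l₂ ++ [a₂]) hp₁ hp₂ ?_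
    (fun z hz => hout z (hA₁' z hz)) (fun z hz => hout z (hA₂' z hz)) ?_
    (fun z hz => h.AS (hA₁' z hz)) (fun z hz => h.AS (hA₂' z hz)))
  · intro z hz hz'
    simp only [mem_append, mem_singleton] at hz hz'
    rcases hz with hz | rfl
    · rcases hz' with hz' | rfl
      · exact hd z hz hz'
      · exact q1 hz
    · rcases hz' with hz' | rfl
      · exact q2 hz'
      · exact hne rfl
  · rintro z (e | e)
    · exact h.BS e
    · rw [e]; exact h.cS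

theorem Cut.hasDB (h : Cut E S c A B) {φ : V → Fin 3} (hφ : ∀ u, ¬ TransGen (MA E A c φ) u u) :
    HasK3 (DB E A B c (fun a => TransGen (MA E A c φ) c a)) (B ∪ {c}) := by
  by_contra hno
  set G : V → Prop := fun a => TransGen (MA E A c φ) c a with hG
  have hlt : (B ∪ {c}).ncard < S.ncard := by
    refine Set.ncard_lt_ncard ⟨?_, ?_⟩ (Set.toFinite _)
    · rintro z (e | e)
      · exact h.BS e
      · rw [e]; exact h.cS
    · intro hs
      obtain ⟨a, ha⟩ := h.neA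
      rcases hs (h.AS ha) with e | e
      · exact h.disj a ha e
      · rw [e] at ha; exact h.cA ha
  have hcol : Col (DB E A B c G) 3 := by
    refine h.mc.ih _ _ hlt ?_ ?_ hno
    · rintro p q (⟨_, hp, hq⟩ | ⟨hp, hq, _⟩)
      · exact ⟨hp, hq⟩
      · exact ⟨Or.inr hp, Or.inl hq⟩
    · rintro p (⟨hp, _⟩ | ⟨hp, hq, _⟩)
      · exact h.mc.loop p hp
      · rw [hp] at hq; exact h.cB hq
  obtain ⟨g, hg0, hg⟩ := hcol.exists_eq c (φ c)
  refine h.mc.ncol (glue h.cA h.cB h.disj ?_ h.BA G φ g hg0.symm hφ hg ?_)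
  · intro p q hpq
    exact ⟨h.cov p (h.mc.supp p q hpq).1, h.cov q (h.mc.supp p q hpq).2⟩
  · intro a _ hn _
    exact hn

theorem Cut.claim3 (h : Cut E S c A B) {φ : V → Fin 3} (hφ : ∀ u, ¬ TransGen (MA E A c φ) u u) :
    ∃ a ∈ A, TransGen (MA E A c φ) c a ∧ NS E B c a := by
  obtain ⟨β, L, hk⟩ := h.hasDB hφ
  set G : V → Prop := fun a => TransGen (MA E A c φ) c a with hG
  -- arcs of `DB` with tail `c`
  have harc : ∀ p q, DB E A B c G p q → E p q ∨ (p = c ∧ q ∈ B ∧ ∃ a ∈ A, G a ∧ E a q) := by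
    rintro p q (⟨h1, _⟩ | h1)
    · exact Or.inl h1
    · exact Or.inr h1
  have one : ∀ b, HasK3 (fun p q => E p q ∨
      (p = c ∧ q = b ∧ q ∈ B ∧ ∃ a ∈ A, G a ∧ E a q)) (B ∪ {c}) → False := by
    intro b hb
    by_cases hv : b ∈ B ∧ ∃ a ∈ A, G a ∧ E a b
    · obtain ⟨hbB, a, ha, _, hab⟩ := hv
      refine h.noB1 ha hbB hab (hb.mono ?_ (subset_refl _))
      rintro p q _ _ _ (h1 | ⟨h1, h2, _⟩)
      · exact Or.inl h1
      · exact Or.inr ⟨h1, h2⟩
    · refine h.mc.nok (hb.mono ?_ ?_)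
      · rintro p q _ _ _ (h1 | ⟨h1, h2, h3, h4⟩)
        · exact h1
        · subst h2; exact absurd ⟨h3, h4⟩ hv
      · rintro z (e | e)
        · exact h.BS e
        · rw [e]; exact h.cS
  rcases out_cases hk c with ⟨b, hb⟩ | ⟨b₁, b₂, m₁, m₂, hne, hb, pp₁, pp₂, hm₂, hm₁, hdd⟩
  · exfalso
    refine one b ⟨β, L, hb.imp ?_ (subset_refl _)⟩
    intro i j _ p q _ hpq
    rcases harc p q hpq.1 with e | ⟨e1, e2⟩
    · exact Or.inl e
    · exact Or.inr ⟨e1, hpq.2 e1, e2⟩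
  · have hb' : HasK3 (fun p q => E p q ∨ (p = c ∧ (q = b₁ ∨ q = b₂) ∧ q ∈ B ∧
        ∃ a ∈ A, G a ∧ E a q)) (B ∪ {c}) := by
      refine ⟨β, L, hb.imp ?_ (subset_refl _)⟩
      intro i j _ p q _ hpq
      rcases harc p q hpq.1 with e | ⟨e1, e2⟩
      · exact Or.inl e
      · exact Or.inr ⟨e1, hpq.2 e1, e2⟩
    by_cases hv₁ : b₁ ∈ B ∧ ∃ a ∈ A, G a ∧ E a b₁
    swap
    · exfalso
      refine one b₂ (hb'.mono ?_ (subset_refl _))
      rintro p q _ _ _ (e | ⟨e1, e2, e3⟩)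
      · exact Or.inl e
      · rcases e2 with rfl | rfl
        · exact absurd e3 hv₁
        · exact Or.inr ⟨e1, rfl, e3⟩
    by_cases hv₂ : b₂ ∈ B ∧ ∃ a ∈ A, G a ∧ E a b₂
    swap
    · exfalso
      refine one b₁ (hb'.mono ?_ (subset_refl _))
      rintro p q _ _ _ (e | ⟨e1, e2, e3⟩)
      · exact Or.inl e
      · rcases e2 with rfl | rfl
        · exact Or.inr ⟨e1, rfl, e3⟩
        · exact absurd e3 hv₂
    obtain ⟨hb₁, a₁, ha₁, hG₁, hab₁⟩ := hv₁
    obtain ⟨hb₂, a₂, ha₂, hG₂, hab₂⟩ := hv₂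
    by_cases haa : a₁ = a₂
    · subst haa
      have hreal : ∀ p q, (DB E A B c G p q ∧ p ≠ c) → E p q ∧ p ∈ B := by
        rintro p q ⟨⟨e1, e2, _⟩ | ⟨e1, _⟩, hpc⟩
        · rcases e2 with e2 | e2
          · exact ⟨e1, e2⟩
          · exact absurd e2 hpc
        · exact absurd e1 hpc
      refine ⟨a₁, ha₁, hG₁, b₁, b₂, m₁, m₂, hne, hab₁, hab₂, hb₁, hb₂,
        pp₁.mono (fun p q e => (hreal p q e).1), pp₂.mono (fun p q e => (hreal p q e).1),
        hm₂, hm₁, hdd, ?_, ?_⟩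
      · exact pp₁.forall_int_tail (P := fun z => z ∈ B) (fun p q e => (hreal p q e).2)
      · exact pp₂.forall_int_tail (P := fun z => z ∈ B) (fun p q e => (hreal p q e).2)
    · exfalso
      refine h.noB2 ha₁ ha₂ haa hb₁ hb₂ hab₁ hab₂ (hb'.mono ?_ (subset_refl _))
      rintro p q _ _ _ (e | ⟨e1, e2, _⟩)
      · exact Or.inl (Or.inl e)
      · rcases e2 with e2 | e2
        · exact Or.inl (Or.inr ⟨e1, e2⟩)
        · exact Or.inr ⟨e1, e2⟩

theorem Cut.hasDA (h : Cut E S c A B) : HasK3 (DA E A B c) (A ∪ {c}) := by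
  by_contra hno
  have hlt : (A ∪ {c}).ncard < S.ncard := by
    refine Set.ncard_lt_ncard ⟨?_, ?_⟩ (Set.toFinite _)
    · rintro z (e | e)
      · exact h.AS e
      · rw [e]; exact h.cS
    · intro hs
      obtain ⟨b, hb⟩ := h.neB
      rcases hs (h.BS hb) with e | e
      · exact h.disj b e hb
      · rw [e] at hb; exact h.cB hb
  have hcol : Col (DA E A B c) 3 := by
    refine h.mc.ih _ _ hlt ?_ ?_ hno
    · rintro p q (⟨_, hp, hq⟩ | ⟨hp, hq, _⟩)
      · exact ⟨hp, hq⟩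
      · exact ⟨Or.inl hp, Or.inr hq⟩
    · rintro p (⟨hp, _⟩ | ⟨hp, hq, _⟩)
      · exact h.mc.loop p hp
      · rw [hq] at hp; exact h.cA hp
  obtain ⟨φ, hφ⟩ := hcol
  have hle : MA E A c φ ≤ (fun p q => DA E A B c p q ∧ φ p = φ q) :=
    fun p q e => ⟨Or.inl e.1, e.2⟩
  obtain ⟨a, ha, hG, hN⟩ := h.claim3 (φ := φ) (fun u hu => hφ u (TransGen.mono hle u u hu))
  have hca : φ c = φ a := mono_const (fun p q e => e.2) hG
  exact hφ c ((TransGen.mono hle c a hG).tail ⟨Or.inr ⟨ha, rfl, hN⟩, hca.symm⟩)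

/-- one virtual arc `a → c` -/
theorem Cut.noA1 (h : Cut E S c A B) {a : V} (ha : a ∈ A) (hN : NS E B c a)
    (hk : HasK3 (fun p q => E p q ∨ (p = a ∧ q = c)) (A ∪ {c})) : False := by
  obtain ⟨b₁, b₂, m₁, m₂, hne, hab₁, hab₂, hb₁, hb₂, p1, p2, _, _, _, hB₁, hB₂⟩ := hN
  have hab' : a ≠ b₁ := by rintro rfl; exact h.disj _ ha hb₁
  have hac : a ≠ c := by rintro rfl; exact h.cA ha
  have ham : a ∉ m₁ := fun e => h.disj a ha (hB₁ a e)
  have hp : Pth E a (b₁ :: m₁) c := p1.cons hab₁ hab' hac ham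
  have hB : ∀ z ∈ b₁ :: m₁, z ∈ B := by
    intro z hz
    rcases mem_cons.1 hz with rfl | hz
    · exact hb₁
    · exact hB₁ z hz
  refine h.mc.nok (lift1 hk (fun _ _ h => h) (b₁ :: m₁) hp ?_ ?_ (fun z hz => h.BS (hB z hz)))
  · rintro z hz (e | e)
    · exact h.disj z e (hB z hz)
    · rw [e] at hz; exact h.cB (hB c hz)
  · rintro z (e | e)
    · exact h.AS e
    · rw [e]; exact h.cS

/-- two virtual arcs `a₁ → c`, `a₂ → c` -/
theorem Cut.noA2 (h : Cut E S c A B) {a₁ a₂ : V} (ha₁ : a₁ ∈ A) (ha₂ : a₂ ∈ A) (hne : a₁ ≠ a₂)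
    (hN₁ : NS E B c a₁) (hN₂ : NS E B c a₂)
    (hk : HasK3 (fun p q => (E p q ∨ (p = a₁ ∧ q = c)) ∨ (p = a₂ ∧ q = c)) (A ∪ {c})) :
    False := by
  have hca : ∀ a ∈ A, c ≠ a := by rintro a ha rfl; exact h.cA ha
  set r' : V → V → Prop := fun p q => E q p ∧ (q ∈ B ∨ q = a₁ ∨ q = a₂) ∧ (p ∈ B ∨ p = c)
    with hr'
  -- a path `a → b → m → c` gives a reversed reachability
  have key : ∀ a b m z, (a = a₁ ∨ a = a₂) → E a b → b ∈ B → Pth E b m c → (∀ t ∈ m, t ∈ B) →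
      a ∈ A → z ≠ c → z ≠ a → z ≠ b → z ∉ m →
      ReflTransGen (fun p q => r' p q ∧ p ≠ z ∧ q ≠ z) c a := by
    intro a b m z haa hab hb hp hm ha hzc hza hzb hzm
    have h1 : a ≠ b := by rintro rfl; exact h.disj _ ha hb
    have h2 : a ≠ c := (hca a ha).symm
    have h3 : a ∉ m := fun e => h.disj a ha (hm a e)
    have h4 : Pth E a (b :: m) c := Pth.cons hab hp h1 h2 h3
    have hB : ∀ t ∈ b :: m, t ∈ B := by
      intro t ht
      rcases mem_cons.1 ht with rfl | ht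
      · exact hb
      · exact hm t ht
    have h5 := pth_rev h4
    have h6 : Pth r' c (b :: m).reverse a := by
      refine pth_imp h5 ?_
      intro p q hp hq hpq
      refine ⟨hpq, ?_, ?_⟩
      · rcases hq with hq | rfl
        · exact Or.inl (hB q (mem_reverse.1 hq))
        · exact Or.inr haa
      · rcases hp with rfl | hp
        · exact Or.inr rfl
        · exact Or.inl (hB p (mem_reverse.1 hp))
    refine rtg_avoid h6 (Ne.symm hzc) (Ne.symm hza) ?_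
    intro e
    rcases mem_cons.1 (mem_reverse.1 e) with e | e
    · exact hzb e
    · exact hzm e
  obtain ⟨b₁, b₂, m₁, m₂, hbb, hab₁, hab₂, hb₁, hb₂, p1, p2, hx₁, hx₂, hd, hB₁, hB₂⟩ := hN₁
  obtain ⟨b₃, _, m₃, _, _, hab₃, _, hb₃, _, p3, _, _, _, _, hB₃, _⟩ := hN₂
  obtain ⟨l₁, l₂, q1, q2, g1, g2, hdd, _⟩ := fan (r := r') (v := c) (x := a₁) (a := a₂)
    (hca a₁ ha₁) (by
      intro z hzc hza
      by_cases hz : z = b₁ ∨ z ∈ m₁
      · refine key a₁ b₂ m₂ z (Or.inl rfl) hab₂ hb₂ p2 hB₂ ha₁ hzc hza ?_ ?_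
        · rintro rfl
          rcases hz with e | e
          · exact hbb e.symm
          · exact hx₂ e
        · intro e
          rcases hz with rfl | e'
          · exact hx₁ e
          · exact hd z e' e
      · push Not at hz
        exact key a₁ b₁ m₁ z (Or.inl rfl) hab₁ hb₁ p1 hB₁ ha₁ hzc hza hz.1 hz.2)
    (by
      refine key a₂ b₃ m₃ a₁ (Or.inr rfl) hab₃ hb₃ p3 hB₃ ha₂ (hca a₁ ha₁).symm hne ?_ ?_
      · rintro rfl; exact h.disj _ ha₁ hb₃
      · intro e; exact h.disj a₁ ha₁ (hB₃ a₁ e))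
    (hca a₂ ha₂).symm
  have hl₁ : ∀ z ∈ l₁, z ∈ B := by
    intro z hz
    rcases q1.forall_int_tail (P := fun z => z ∈ B ∨ z = c) (fun p q e => e.2.2) z hz with e | e
    · exact e
    · rw [e] at hz; exact absurd hz q1.not_mem_left
  have hl₂ : ∀ z ∈ l₂, z ∈ B := by
    intro z hz
    rcases q2.forall_int_tail (P := fun z => z ∈ B ∨ z = c) (fun p q e => e.2.2) z hz with e | e
    · exact e
    · rw [e] at hz; exact absurd hz q2.not_mem_left
  have r1 : Pth E a₁ l₁.reverse c := (pth_rev q1).mono (fun p q e => e.1)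
  have r2 : Pth E a₂ l₂.reverse c := (pth_rev q2).mono (fun p q e => e.1)
  have hout : ∀ z ∈ B, z ∉ A ∪ {c} := by
    rintro z hz (e | e)
    · exact h.disj z e hz
    · rw [e] at hz; exact h.cB hz
  refine h.mc.nok (lift2 hk (fun _ _ h => h) l₁.reverse l₂.reverse r1 r2 ?_
    (fun z hz => hout z (hl₁ z (mem_reverse.1 hz))) (fun z hz => hout z (hl₂ z (mem_reverse.1 hz)))
    ?_ (fun z hz => h.BS (hl₁ z (mem_reverse.1 hz))) (fun z hz => h.BS (hl₂ z (mem_reverse.1 hz))))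
  · intro z hz hz'
    exact hdd z (mem_reverse.1 hz) (mem_reverse.1 hz')
  · rintro z (e | e)
    · exact h.AS e
    · rw [e]; exact h.cS

theorem Cut.false (h : Cut E S c A B) : False := by
  have hk := h.hasDA
  obtain ⟨β, L, hk'⟩ := hasK3_rev hk
  obtain ⟨a₁, a₂, hk2⟩ := hk'.out_two c
  have hk3 : HasK3 (fun p q => E p q ∨ (q = c ∧ (p = a₁ ∨ p = a₂) ∧ p ∈ A ∧ NS E B c p))
      (A ∪ {c}) := by
    have h1 : HasK3 (Rv (fun p q => E p q ∨ (q = c ∧ (p = a₁ ∨ p = a₂) ∧ p ∈ A ∧ NS E B c p)))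
        (A ∪ {c}) := by
      refine ⟨β, L, hk2.imp ?_ (subset_refl _)⟩
      rintro i j _ p q _ ⟨e, e'⟩
      rcases e with e | ⟨e1, e2, e3⟩
      · exact Or.inl e.1
      · exact Or.inr ⟨e2, e' e2, e1, e3⟩
    exact hasK3_rev h1
  have one : ∀ a, HasK3 (fun p q => E p q ∨ (q = c ∧ p = a ∧ p ∈ A ∧ NS E B c p)) (A ∪ {c}) →
      False := by
    intro a hb
    by_cases hv : a ∈ A ∧ NS E B c a
    · refine h.noA1 hv.1 hv.2 (hb.mono ?_ (subset_refl _))
      rintro p q _ _ _ (e | ⟨e1, e2, _⟩)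
      · exact Or.inl e
      · exact Or.inr ⟨e2, e1⟩
    · refine h.mc.nok (hb.mono ?_ ?_)
      · rintro p q _ _ _ (e | ⟨e1, e2, e3, e4⟩)
        · exact e
        · subst e2; exact absurd ⟨e3, e4⟩ hv
      · rintro z (e | e)
        · exact h.AS e
        · rw [e]; exact h.cS
  by_cases hv₁ : a₁ ∈ A ∧ NS E B c a₁
  swap
  · refine one a₂ (hk3.mono ?_ (subset_refl _))
    rintro p q _ _ _ (e | ⟨e1, e2, e3⟩)
    · exact Or.inl e
    · rcases e2 with rfl | rfl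
      · exact absurd e3 hv₁
      · exact Or.inr ⟨e1, rfl, e3⟩
  by_cases hv₂ : a₂ ∈ A ∧ NS E B c a₂
  swap
  · refine one a₁ (hk3.mono ?_ (subset_refl _))
    rintro p q _ _ _ (e | ⟨e1, e2, e3⟩)
    · exact Or.inl e
    · rcases e2 with rfl | rfl
      · exact Or.inr ⟨e1, rfl, e3⟩
      · exact absurd e3 hv₂
  by_cases haa : a₁ = a₂
  · subst haa
    refine one a₁ (hk3.mono ?_ (subset_refl _))
    rintro p q _ _ _ (e | ⟨e1, e2, e3⟩)
    · exact Or.inl e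
    · exact Or.inr ⟨e1, e2.elim id id, e3⟩
  · refine h.noA2 hv₁.1 hv₂.1 haa hv₁.2 hv₂.2 (hk3.mono ?_ (subset_refl _))
    rintro p q _ _ _ (e | ⟨e1, e2, _⟩)
    · exact Or.inl (Or.inl e)
    · rcases e2 with e2 | e2
      · exact Or.inl (Or.inr ⟨e2, e1⟩)
      · exact Or.inr ⟨e2, e1⟩

end Cut

/-- A valid pair: `A` is entered only from `c`. -/
def Valid (E : V → V → Prop) (S : Set V) (c : V) (A : Set V) : Prop :=
  c ∈ S ∧ c ∉ A ∧ A ⊆ S ∧ A.Nonempty ∧ (∃ b ∈ S, b ≠ c ∧ b ∉ A) ∧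
    ∀ q a, a ∈ A → E q a → q ∈ A ∨ q = c

theorem no_valid [Finite V] {E : V → V → Prop} {S : Set V} (h : MinCex E S) :
    ∀ n c A, A.ncard = n → ¬ Valid E S c A := by
  intro n
  induction n using Nat.strong_induction_on with
  | _ n IH =>
    intro c A hn hval
    obtain ⟨hcS, hcA, hAS, hneA, ⟨b₀, hb₀S, hb₀c, hb₀A⟩, hin⟩ := hval
    refine Cut.false (E := E) (S := S) (c := c) (A := A) (B := {b | b ∈ S ∧ b ≠ c ∧ b ∉ A})
      ⟨h, hcS, hcA, fun e => e.2.1 rfl, fun p hp hp' => hp'.2.2 hp, ?_, hAS, fun p hp => hp.1,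
        ?_, hneA, ⟨b₀, hb₀S, hb₀c, hb₀A⟩, ?_⟩
    · intro p hp
      by_cases h1 : p ∈ A
      · exact Or.inl h1
      by_cases h2 : p = c
      · exact Or.inr (Or.inr h2)
      · exact Or.inr (Or.inl ⟨hp, h2, h1⟩)
    · intro p q hp hpq hq
      rcases hin p q hq hpq with e | e
      · exact hp.2.2 e
      · exact hp.2.1 e
    · intro s hs a ha has
      by_contra hcon
      set R : V → V → Prop := fun p q => (E p q ∧ (p ∈ A ∨ p = c) ∧ q ∈ A) ∧ p ≠ s ∧ q ≠ s with hR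
      set A1 : Set V := {x | x ∈ A ∧ x ≠ s ∧ ¬ ReflTransGen R c x} with hA1
      have hcs : c ≠ s := by rintro rfl; exact hcA hs
      have hlt : A1.ncard < A.ncard := by
        refine Set.ncard_lt_ncard ⟨fun x hx => hx.1, fun hx => (hx hs).2.1 rfl⟩ (Set.toFinite _)
      refine IH A1.ncard (hn ▸ hlt) s A1 rfl ⟨hAS hs, fun e => e.2.1 rfl, fun x hx => hAS hx.1,
        ⟨a, ha, has, hcon⟩, ⟨c, hcS, hcs, fun e => hcA e.1⟩, ?_⟩
      intro q x hx hqx
      by_cases hqs : q = s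
      · exact Or.inr hqs
      left
      rcases hin q x hx.1 hqx with e | e
      · refine ⟨e, hqs, fun hr => hx.2.2 (hr.tail ⟨⟨hqx, Or.inl e, hx.1⟩, hqs, hx.2.1⟩)⟩
      · subst e
        exact absurd (ReflTransGen.single ⟨⟨hqx, Or.inr rfl, hx.1⟩, hqs, hx.2.1⟩) hx.2.2

/-- **Theorem 1.** A minimum counterexample is strongly 2-connected. -/
theorem two_strong [Finite V] (E : V → V → Prop) (S : Set V) (h : MinCex E S) (p q z : V)
    (hp : p ∈ S) (hq : q ∈ S) (hpz : p ≠ z) (hqz : q ≠ z) :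
    ReflTransGen (fun a b => E a b ∧ a ≠ z ∧ b ≠ z) p q := by
  by_cases hz : z ∈ S
  · by_contra hcon
    set R : V → V → Prop := fun a b => E a b ∧ a ≠ z ∧ b ≠ z with hR
    refine no_valid h _ z {x | x ∈ S ∧ x ≠ z ∧ ¬ ReflTransGen R p x} rfl
      ⟨hz, fun e => e.2.1 rfl, fun x hx => hx.1, ⟨q, hq, hqz, hcon⟩,
        ⟨p, hp, hpz, fun e => e.2.2 ReflTransGen.refl⟩, ?_⟩
    intro y x hx hyx
    by_cases hyz : y = z
    · exact Or.inr hyz
    · left
      exact ⟨(h.supp y x hyx).1, hyz, fun hr => hx.2.2 (hr.tail ⟨hyx, hyz, hx.2.1⟩)⟩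
  · have hle : E ≤ (fun a b => E a b ∧ a ≠ z ∧ b ≠ z) := by
      intro a b hab
      refine ⟨hab, ?_, ?_⟩
      · rintro rfl; exact hz (h.supp _ _ hab).1
      · rintro rfl; exact hz (h.supp _ _ hab).2
    exact ReflTransGen.mono hle p q (h.strong hp hq)

end Pool.Agent.MD12.TS6
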